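import Pool.Agent.W276.GE.Stm

/-!
# Project GE: elementary API for the definitions of `Stm`
-/

set_option autoImplicit false

open Height NumberField

noncomputable section

namespace Pool.Agent.W276.GE

theorem mem_E {n t : ℕ} {α : Fin n → ℕ} : α ∈ Finset.Nat.antidiagonalTuple n t ↔ ∑ i, α i = t :=
  Finset.Nat.mem_antidiagonalTuple

theorem E_sum {n t : ℕ} (α : E n t) : ∑ i, α.1 i = t := mem_E.mp α.2

theorem mem_box {n t T : ℕ} {g : E n t → ℤ} : g ∈ box n t T ↔ ∀ α, |g α| ≤ T := by
  simp only [box, Fintype.mem_piFinset, Finset.mem_Icc, abs_le]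

theorem mem_Fb {n d H : ℕ} {F : Fin n → E n d → ℤ} : F ∈ Fb n d H ↔ ∀ i, F i ∈ box n d H := by
  simp only [Fb, Fintype.mem_piFinset]

theorem card_box (n t T : ℕ) : (box n t T).card = (2 * T + 1) ^ Fintype.card (E n t) := by
  rw [box, Fintype.card_piFinset]
  simp only [Int.card_Icc, Finset.prod_const, Finset.card_univ]
  congr 1
  omega

theorem card_Fb (n d H : ℕ) : (Fb n d H).card = (2 * H + 1) ^ (n * Fintype.card (E n d)) := by
  rw [Fb, Fintype.card_piFinset]
  simp only [card_box, Finset.prod_const, Finset.card_univ, Fintype.card_fin]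
  rw [← pow_mul, mul_comm (Fintype.card (E n d)) n]

section ring
variable {R : Type} [CommRing R] {n t : ℕ}

theorem ev_add (g h : E n t → ℤ) (x : Fin n → R) : ev (g + h) x = ev g x + ev h x := by
  simp only [ev, Pi.add_apply, Int.cast_add, add_mul, Finset.sum_add_distrib]

theorem ev_sub (g h : E n t → ℤ) (x : Fin n → R) : ev (g - h) x = ev g x - ev h x := by
  simp only [ev, Pi.sub_apply, Int.cast_sub, sub_mul, Finset.sum_sub_distrib]

theorem ev_zero (x : Fin n → R) : ev (0 : E n t → ℤ) x = 0 := by simp [ev]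

theorem ev_zsmul (c : ℤ) (g : E n t → ℤ) (x : Fin n → R) : ev (c • g) x = c * ev g x := by
  simp only [ev, Pi.smul_apply, smul_eq_mul, Int.cast_mul, mul_assoc, Finset.mul_sum]

theorem ev_sum {ι : Type*} (s : Finset ι) (g : ι → E n t → ℤ) (x : Fin n → R) :
    ev (∑ i ∈ s, g i) x = ∑ i ∈ s, ev (g i) x := by
  classical
  induction s using Finset.induction_on with
  | empty => simp [ev_zero]
  | insert a s ha ih => rw [Finset.sum_insert ha, Finset.sum_insert ha, ev_add, ih]

theorem ev_map {S : Type} [CommRing S] (φ : R →+* S) (g : E n t → ℤ) (x : Fin n → R) :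
    φ (ev g x) = ev g (fun i => φ (x i)) := by
  simp [ev, map_sum, map_mul, map_prod, map_pow]

theorem ev_smul (c : R) (g : E n t → ℤ) (x : Fin n → R) :
    ev g (fun i => c * x i) = c ^ t * ev g x := by
  simp only [ev, Finset.mul_sum]
  refine Finset.sum_congr rfl fun α _ => ?_
  simp only [mul_pow, Finset.prod_mul_distrib, Finset.prod_pow_eq_pow_sum, E_sum α]
  ring

theorem sh_add {d s : ℕ} (g : E n d → ℤ) (γ : E n s) (β : E n d)
    (hm : (fun i => γ.1 i + β.1 i) ∈ Finset.Nat.antidiagonalTuple n t) :
    sh g γ (⟨fun i => γ.1 i + β.1 i, hm⟩ : E n t) = g β := by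
  have h1 : ∀ i, γ.1 i ≤ γ.1 i + β.1 i := fun i => Nat.le_add_right _ _
  have h2 : (fun i => γ.1 i + β.1 i - γ.1 i) = β.1 := by
    funext i
    omega
  rw [sh, if_pos h1, co, h2, dif_pos β.2]

/-- Evaluation of the product of `g` and a monomial. -/
theorem ev_sh {d s : ℕ} (h : s + d = t) (g : E n d → ℤ) (γ : E n s) (x : Fin n → R) :
    ev (fun α : E n t => sh g γ α) x = (∏ i, x i ^ γ.1 i) * ev g x := by
  classical
  have hmem : ∀ β : E n d, (fun i => γ.1 i + β.1 i) ∈ Finset.Nat.antidiagonalTuple n t := by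
    intro β
    rw [mem_E, Finset.sum_add_distrib, E_sum, E_sum, h]
  let f : E n d → E n t := fun β => ⟨fun i => γ.1 i + β.1 i, hmem β⟩
  have hf : Function.Injective f := by
    intro β β' hb
    have := congrArg Subtype.val hb
    apply Subtype.ext
    funext i
    have := congrFun this i
    simp only [f] at this
    omega
  rw [ev, ev, Finset.mul_sum]
  symm
  refine Finset.sum_of_injOn f (fun a _ b _ hab => hf hab) (fun _ _ => Finset.mem_coe.2 (Finset.mem_univ _)) ?_ ?_
  · intro α _ hα
    have : sh g γ α = 0 := by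
      rw [sh]
      split_ifs with hle
      · rw [co]
        split_ifs with hm
        · exfalso
          apply hα
          refine ⟨⟨_, hm⟩, Finset.mem_coe.2 (Finset.mem_univ _), ?_⟩
          apply Subtype.ext
          funext i
          have := hle i
          simp only [f]
          omega
        · rfl
      · rfl
    simp only [this, Int.cast_zero, zero_mul]
  · intro β _
    simp only [f]
    rw [sh_add g γ β (hmem β)]
    simp only [pow_add, Finset.prod_mul_distrib]
    ring

theorem sh_abs_le {d s T : ℕ} {g : E n d → ℤ} (hg : g ∈ box n d T) (γ : E n s) (α : E n t) :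
    |sh g γ α| ≤ T := by
  rw [sh]
  split_ifs
  · rw [co]
    split_ifs
    · exact mem_box.mp hg _
    · simp
  · simp

end ring

end Pool.Agent.W276.GE
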