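import Pool.Agent.W276.GE.Count

/-!
# Project GE: the bound for the number of forms vanishing at a point
-/

set_option autoImplicit false

open Height NumberField

noncomputable section

namespace Pool.Agent.W276.GE

theorem card_E_pos (n t : ℕ) (hn : 1 ≤ n) : 1 ≤ Fintype.card (E n t) := by
  rw [Nat.one_le_iff_ne_zero, ← Nat.pos_iff_ne_zero, Fintype.card_pos_iff]
  refine ⟨⟨Pi.single ⟨0, hn⟩ t, ?_⟩⟩
  rw [mem_E, Finset.sum_pi_single']
  simp

theorem real_core {a b X H m : ℝ} {k e B d M : ℕ} (ha0 : 0 ≤ a) (hb0 : 0 ≤ b) (hX1 : 1 ≤ X)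
    (hH1 : 1 ≤ H) (hHX : H ≤ X) (hm0 : 1 ≤ m) (hk : 1 ≤ k) (he : 1 ≤ e)
    (hke : (B + 1) * (k * e) ≤ d - 1) (hM1 : 1 ≤ M) (h4' : a * b ≤ ((2 * m + 7) * H) ^ M)
    (h6 : X ^ (d - 1) ≤ (b ^ k) ^ e * (3 * m) ^ e) :
    a * X ^ B ≤ ((2 * m + 7) ^ M * (3 * m)) * H ^ (M - 1) := by
  have h8 : (a * X ^ B * H) ^ (k * e) ≤ (((2 * m + 7) * H) ^ M * (3 * m)) ^ (k * e) := by
    calc (a * X ^ B * H) ^ (k * e) ≤ (a * X ^ B * X) ^ (k * e) := by gcongr
      _ = a ^ (k * e) * X ^ ((B + 1) * (k * e)) := by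
          rw [mul_assoc, ← pow_succ, mul_pow, ← pow_mul]
      _ ≤ a ^ (k * e) * X ^ (d - 1) :=
          mul_le_mul_of_nonneg_left (pow_le_pow_right₀ hX1 hke) (pow_nonneg ha0 _)
      _ ≤ a ^ (k * e) * ((b ^ k) ^ e * (3 * m) ^ e) := by gcongr
      _ = (a * b) ^ (k * e) * (3 * m) ^ e := by
          rw [mul_pow, ← pow_mul]; ring
      _ ≤ (((2 * m + 7) * H) ^ M) ^ (k * e) * (3 * m) ^ (k * e) := by
          refine mul_le_mul (pow_le_pow_left₀ (mul_nonneg ha0 hb0) h4' _) ?_ (by positivity)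
            (by positivity)
          exact pow_le_pow_right₀ (by linarith) (Nat.le_mul_of_pos_left _ (by omega))
      _ = _ := by rw [← mul_pow]
  have hke0 : k * e ≠ 0 := Nat.mul_ne_zero (by omega) (by omega)
  have h9 : a * X ^ B * H ≤ ((2 * m + 7) * H) ^ M * (3 * m) :=
    le_of_pow_le_pow_left₀ hke0 (by positivity) h8
  have h10 : ((2 * m + 7) * H) ^ M * (3 * m) =
      ((2 * m + 7) ^ M * (3 * m)) * H ^ (M - 1) * H := by
    rw [mul_pow]
    have : H ^ M = H ^ (M - 1) * H := by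
      rw [← pow_succ]; congr 1; omega
    rw [this]; ring
  rw [h10] at h9
  exact le_of_mul_le_mul_right h9 (by linarith)

theorem nz_bound (hspan : S_span) (hcov : S_cov) (hlow : S_low) (hpack : S_pack) (N D B : ℕ)
    (hN : 1 ≤ N) (hD : 1 ≤ D) : ∃ d₀ : ℕ, ∀ d, d₀ ≤ d → ∃ C : ℝ, 0 < C ∧ ∀ H : ℕ, 1 ≤ H →
      ∀ F ∈ Fb (N + 1) d H, NoZero F → ∀ (K : Type) [Field K] [NumberField K],
      Module.finrank ℚ K ≤ D → ∀ P : Fin (N + 1) → K, P ≠ 0 →
      mulHeight (fun i => ev (F i) P) ≤ mulHeight P →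
      (nz d (2 * H) P : ℝ) * mulHeight P ^ B ≤ C * (H : ℝ) ^ (Fintype.card (E (N + 1) d) - 1) := by
  obtain ⟨k₀, hk₀⟩ := hcov N
  set k := k₀ + 1 with hk
  refine ⟨max (N + 1) (max (2 * D * N * B) ((B + 1) * k * D + 1)), fun d hd => ?_⟩
  have hd1 : N + 1 ≤ d := le_trans (le_max_left _ _) hd
  have hd2 : 2 * D * N * B ≤ d := le_trans (le_trans (le_max_left _ _) (le_max_right _ _)) hd
  have hd3 : (B + 1) * k * D + 1 ≤ d :=
    le_trans (le_trans (le_max_right _ _) (le_max_right _ _)) hd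
  obtain ⟨C₁, hC₁, hp⟩ := hpack N D d hN hD (by omega)
  set t := (N + 1) * (d - 1) + 1 with ht
  have hdt : d ≤ t := by
    have : (d - 1) ≤ (N + 1) * (d - 1) := Nat.le_mul_of_pos_left _ (by omega)
    omega
  set m : ℕ := (N + 1) * Fintype.card (E (N + 1) (t - d)) with hm
  have hm1 : 1 ≤ m := Nat.mul_pos (by omega) (card_E_pos _ _ (by omega))
  set M := Fintype.card (E (N + 1) d) with hM
  have hM1 : 1 ≤ M := card_E_pos _ _ (by omega)
  refine ⟨max C₁ ((2 * m + 7 : ℝ) ^ M * (3 * m)), lt_max_of_lt_left hC₁, ?_⟩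
  intro H hH F hF hnz K _ _ hK P hP hle
  have hX1 : 1 ≤ mulHeight P := one_le_mulHeight P
  set X := mulHeight P with hX
  have hH1 : (1 : ℝ) ≤ H := by exact_mod_cast hH
  rcases le_or_gt X ((H : ℝ) ^ (2 * D * N)) with hc | hc
  · -- small heights
    have h1 := hp K hK P hP H hH hc
    have h2 : X ^ B ≤ X ^ ((d : ℝ) / (2 * D * N)) := by
      rw [← Real.rpow_natCast]
      refine Real.rpow_le_rpow_of_exponent_le hX1 ?_
      rw [le_div_iff₀ (by positivity)]
      have : (B * (2 * D * N) : ℝ) = ((2 * D * N * B : ℕ) : ℝ) := by push_cast; ring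
      rw [this]
      exact_mod_cast hd2
    calc (nz d (2 * H) P : ℝ) * X ^ B ≤ (nz d (2 * H) P : ℝ) * X ^ ((d : ℝ) / (2 * D * N)) := by
          gcongr
      _ ≤ C₁ * (H : ℝ) ^ (M - 1) := h1
      _ ≤ _ := by gcongr; exact le_max_left _ _
  · -- large heights
    have he : 1 ≤ Module.finrank ℚ K := Module.finrank_pos
    set e := Module.finrank ℚ K with hedef
    have hHX : (H : ℝ) ≤ X := by
      refine le_trans ?_ hc.le
      calc (H : ℝ) = (H : ℝ) ^ 1 := (pow_one _).symm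
        _ ≤ (H : ℝ) ^ (2 * D * N) := by
          refine pow_le_pow_right₀ hH1 ?_
          have : 1 ≤ D * N := Nat.mul_pos hD hN
          nlinarith
    have hsp : Spans F t := hspan (N + 1) d (by omega) (by omega) F hnz t le_rfl
    have h1 := hlow (N + 1) d t H (by omega) (by omega) hdt hH F (mem_Fb.mp hF) hsp K P hP hle
    rw [← hedef, ← hX] at h1
    let φ : K →+* ℂ := Classical.arbitrary _
    set T := H + (N + 1) * Fintype.card (E (N + 1) (t - d)) * H with hT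
    have h2 : nv t T P ≤ nv d T P ^ k := by
      have h3 := hk₀ d hd1 T (fun i => φ (P i))
      rw [nv_map φ P, nv_map φ P] at h3
      exact h3.trans (Nat.pow_le_pow_right (one_le_nv d T P) (by omega))
    have h4 := nz_mul_nv d (2 * H) T P
    set a : ℝ := (nz d (2 * H) P : ℝ) with ha
    set b : ℝ := (nv d T P : ℝ) with hb
    have ha0 : 0 ≤ a := Nat.cast_nonneg _
    have hb0 : 0 ≤ b := Nat.cast_nonneg _
    have h4' : a * b ≤ ((2 * m + 7) * H) ^ M := by
      have h5 : (a * b : ℝ) ≤ ((2 * (T + 2 * H) + 1 : ℕ) : ℝ) ^ M := by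
        rw [ha, hb]
        exact_mod_cast h4
      refine h5.trans ?_
      gcongr
      have : ((2 * (T + 2 * H) + 1 : ℕ) : ℝ) = 2 * m * H + 6 * H + 1 := by
        rw [hT, ← hm]; push_cast; ring
      rw [this]
      nlinarith
    have h2' : ((nv t T P : ℕ) : ℝ) ^ e ≤ (b ^ k) ^ e := by
      gcongr
      rw [hb]
      exact_mod_cast h2
    have hm0 : (1 : ℝ) ≤ m := by exact_mod_cast hm1
    -- lower bound
    have h6 : X ^ (d - 1) ≤ (b ^ k) ^ e * (3 * m) ^ e := by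
      have h7 : ((H : ℝ) / (3 * m)) ^ e * X ^ (d - 1) ≤ (b ^ k) ^ e := by
        refine le_trans ?_ h2'
        have : ((H : ℝ) / (3 * m)) = ((H : ℝ) / (3 * (((N + 1 : ℕ) : ℝ) *
            (Fintype.card (E (N + 1) (t - d)) : ℝ)))) := by
          rw [hm]; push_cast; ring
        rw [this]
        exact h1
      calc X ^ (d - 1) = ((1 : ℝ) / (3 * m)) ^ e * X ^ (d - 1) * (3 * m) ^ e := by
            rw [mul_right_comm, ← mul_pow, one_div, inv_mul_cancel₀ (by positivity), one_pow,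
              one_mul]
        _ ≤ ((H : ℝ) / (3 * m)) ^ e * X ^ (d - 1) * (3 * m) ^ e := by gcongr
        _ ≤ (b ^ k) ^ e * (3 * m) ^ e := by gcongr
    have hke : (B + 1) * (k * e) ≤ d - 1 := by
      have : (B + 1) * (k * e) ≤ (B + 1) * k * D := by
        rw [mul_assoc]
        exact Nat.mul_le_mul_left _ (Nat.mul_le_mul_left _ hK)
      omega
    have h11 := real_core ha0 hb0 hX1 hH1 hHX hm0 (by omega : 1 ≤ k) he hke hM1 h4' h6
    exact h11.trans (by gcongr; exact le_max_right _ _)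

end Pool.Agent.W276.GE
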