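import Pool.Agent.W276.GE.Poly
import Pool.Agent.W85.GE.Perm
import Pool.Agent.W333.GELin
import Pool.Agent.W366.GE.Hyp
import Pool.Agent.W216.GE.Regu
import Pool.Agent.W405.GE.Span
import Pool.Agent.W216.GE.Cov
import Pool.Agent.W108.GE.Ideal
import Pool.Agent.W462.GE.Arch
import Pool.Agent.W347.GE.Root
import Pool.Agent.W135.GE.Prod
import Pool.Agent.W32.GE.Pts
import Pool.Agent.W376.GE.LB
import Pool.Agent.W216.GE.Deg
import Pool.Agent.W613.GEPack

/-!
# Project GE: all the parts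
-/

set_option autoImplicit false

open Height NumberField MvPolynomial

namespace Pool.Agent.W276.GE

theorem closed (N D : ℕ) (hN : 1 ≤ N) (hD : 1 ≤ D) : ∃ d₀ : ℕ, ∀ d, d₀ ≤ d → ∃ C : ℝ, 0 < C ∧
      ∀ H : ℕ, 1 ≤ H → (({F | F ∈ Fb (N + 1) d H ∧ NoZero F ∧ Bad D F} :
      Set (Fin (N + 1) → E (N + 1) d → ℤ)).ncard : ℝ) ≤
        C * (H : ℝ) ^ ((N + 1) * Fintype.card (E (N + 1) d) - N) :=
  bad_count (W405.GE.span_of_mac (W216.GE.mac W85.GE.perm W333.GELin.lin W366.GE.hyp)) W216.GE.cov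
    (W462.GE.arch W108.GE.ideal) (W613.GEPack.pack W347.GE.root W135.GE.prod) W32.GE.pts N D hN hD

end Pool.Agent.W276.GE
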