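import Pool.Agent.W276.GE.Main

/-!
# Project GE: forms as polynomials
-/

set_option autoImplicit false

open Height NumberField MvPolynomial

noncomputable section

namespace Pool.Agent.W276.GE

/-- the exponent vector as a finitely supported function -/
def fs {n t : ℕ} (α : E n t) : Fin n →₀ ℕ := Finsupp.equivFunOnFinite.symm α.1

theorem fs_apply {n t : ℕ} (α : E n t) (i : Fin n) : fs α i = α.1 i := rfl

theorem fs_injective {n t : ℕ} : Function.Injective (fs : E n t → Fin n →₀ ℕ) := by
  intro α β h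
  apply Subtype.ext
  exact Finsupp.equivFunOnFinite.symm.injective h

theorem degree_fs {n t : ℕ} (α : E n t) : (fs α).degree = t := by
  rw [Finsupp.degree_eq_sum]
  exact E_sum α

theorem exists_fs {n t : ℕ} {m : Fin n →₀ ℕ} (h : m.degree = t) : ∃ α : E n t, fs α = m := by
  refine ⟨⟨fun i => m i, ?_⟩, ?_⟩
  · rw [mem_E, ← Finsupp.degree_eq_sum, h]
  · ext i; rfl

/-- coefficients -/
def cf {n : ℕ} (t : ℕ) (p : MvPolynomial (Fin n) ℤ) : E n t → ℤ := fun α => p.coeff (fs α)

/-- the form with given coefficients -/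
def pf {n t : ℕ} (g : E n t → ℤ) : MvPolynomial (Fin n) ℤ := ∑ α, monomial (fs α) (g α)

theorem pf_hom {n t : ℕ} (g : E n t → ℤ) : (pf g).IsHomogeneous t := by
  refine IsHomogeneous.sum _ _ _ fun α _ => ?_
  exact isHomogeneous_monomial _ (degree_fs α)

theorem cf_pf {n t : ℕ} (g : E n t → ℤ) : cf t (pf g) = g := by
  classical
  funext α
  rw [cf, pf, coeff_sum, Finset.sum_eq_single α]
  · rw [coeff_monomial, if_pos rfl]
  · intro β _ h
    rw [coeff_monomial, if_neg fun h' => h (fs_injective h')]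
  · intro h; exact absurd (Finset.mem_univ _) h

theorem pf_cf {n t : ℕ} {p : MvPolynomial (Fin n) ℤ} (hp : p.IsHomogeneous t) :
    pf (cf t p) = p := by
  classical
  ext m
  by_cases h : m.degree = t
  · obtain ⟨α, rfl⟩ := exists_fs h
    exact congrFun (cf_pf (cf t p)) α
  · rw [hp.coeff_eq_zero h, (pf_hom _).coeff_eq_zero h]

theorem coeff_pf_abs {n t T : ℕ} {g : E n t → ℤ} (hg : g ∈ box n t T) (m : Fin n →₀ ℕ) :
    |(pf g).coeff m| ≤ T := by
  by_cases h : m.degree = t
  · obtain ⟨α, rfl⟩ := exists_fs h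
    have := congrFun (cf_pf g) α
    rw [cf] at this
    rw [this]
    exact mem_box.mp hg α
  · rw [(pf_hom _).coeff_eq_zero h]
    simp

theorem aeval_pf {R : Type} [CommRing R] {n t : ℕ} (g : E n t → ℤ) (x : Fin n → R) :
    aeval x (pf g) = ev g x := by
  rw [pf, map_sum, ev]
  refine Finset.sum_congr rfl fun α _ => ?_
  rw [aeval_monomial, Finsupp.prod_fintype _ _ (fun i => pow_zero _)]
  rfl

theorem aeval_eq_ev {R : Type} [CommRing R] {n t : ℕ} {p : MvPolynomial (Fin n) ℤ}
    (hp : p.IsHomogeneous t) (x : Fin n → R) : aeval x p = ev (cf t p) x := by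
  conv_lhs => rw [← pf_cf hp]
  exact aeval_pf _ _

theorem card_E (N d : ℕ) : Fintype.card (E (N + 1) d) = (N + d).choose N := by
  classical
  have h1 : Fintype.card (E (N + 1) d) =
      (Finset.finsuppAntidiag (Finset.univ : Finset (Fin (N + 1))) d).card := by
    rw [← Finset.card_univ]
    refine Finset.card_bij (fun α _ => fs α) ?_ (fun a _ b _ h => fs_injective h) ?_
    · intro α _
      rw [Finset.mem_finsuppAntidiag]
      exact ⟨E_sum α, Finset.subset_univ _⟩
    · intro m hm
      rw [Finset.mem_finsuppAntidiag] at hm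
      obtain ⟨α, hα⟩ := exists_fs (t := d) (m := m) (by rw [Finsupp.degree_eq_sum]; exact hm.1)
      exact ⟨α, Finset.mem_univ _, hα⟩
  rw [h1, Finset.card_finsuppAntidiag_nat_eq_choose, Finset.card_univ, Fintype.card_fin,
    show N + 1 + d - 1 = N + d by omega]
  exact (Nat.choose_symm_add (a := N) (b := d)).symm

end Pool.Agent.W276.GE
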