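import Pool.Agent.W276.GE.Basic

/-!
# Project GE: vanishing forms, numbers of values, fibres
-/

set_option autoImplicit false

open Height NumberField

noncomputable section

namespace Pool.Agent.W276.GE

section ring
variable {R : Type} [CommRing R] {n : ℕ}

theorem nz_finite (t T : ℕ) (x : Fin n → R) :
    {g : E n t → ℤ | g ∈ box n t T ∧ ev g x = 0}.Finite :=
  (box n t T).finite_toSet.subset fun _ h => h.1

theorem zero_mem_box (n t T : ℕ) : (0 : E n t → ℤ) ∈ box n t T := by
  rw [mem_box]; intro α; simp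

theorem one_le_nv (t T : ℕ) (x : Fin n → R) : 1 ≤ nv t T x := by
  rw [nv, Nat.one_le_iff_ne_zero, ← Nat.pos_iff_ne_zero, Set.ncard_pos ((Finset.finite_toSet _).image _)]
  exact ⟨_, 0, Finset.mem_coe.2 (zero_mem_box n t T), rfl⟩

theorem one_le_nz (t T : ℕ) (x : Fin n → R) : 1 ≤ nz t T x := by
  rw [nz, Nat.one_le_iff_ne_zero, ← Nat.pos_iff_ne_zero, Set.ncard_pos (nz_finite t T x)]
  exact ⟨0, zero_mem_box n t T, ev_zero x⟩

theorem add_mem_box {t T T' : ℕ} {g h : E n t → ℤ} (hg : g ∈ box n t T) (hh : h ∈ box n t T') :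
    g + h ∈ box n t (T + T') := by
  rw [mem_box] at *
  intro α
  have h1 := hg α
  have h2 := hh α
  push_cast
  exact (abs_add_le _ _).trans (add_le_add h1 h2)

theorem sub_mem_box {t T T' : ℕ} {g h : E n t → ℤ} (hg : g ∈ box n t T) (hh : h ∈ box n t T') :
    g - h ∈ box n t (T + T') := by
  rw [mem_box] at *
  intro α
  have h1 := hg α
  have h2 := hh α
  push_cast
  exact (abs_sub _ _).trans (add_le_add h1 h2)

/-- Number of vanishing forms times number of values. -/
theorem nz_mul_nv (t T T' : ℕ) (x : Fin n → R) :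
    nz t T x * nv t T' x ≤ (2 * (T' + T) + 1) ^ Fintype.card (E n t) := by
  classical
  set V : Set R := (fun g : E n t → ℤ => ev g x) '' (box n t T' : Set (E n t → ℤ)) with hV
  have hVf : V.Finite := (Finset.finite_toSet _).image _
  set Z : Set (E n t → ℤ) := {g : E n t → ℤ | g ∈ box n t T ∧ ev g x = 0} with hZ
  have hZf : Z.Finite := nz_finite t T x
  have hch : ∀ v : R, ∃ g : E n t → ℤ, v ∈ V → g ∈ box n t T' ∧ ev g x = v := by
    intro v
    by_cases hv : v ∈ V
    · obtain ⟨g, hg, hgv⟩ := hv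
      exact ⟨g, fun _ => ⟨Finset.mem_coe.1 hg, hgv⟩⟩
    · exact ⟨0, fun h => absurd h hv⟩
  choose s hs using hch
  have hle : (Z ×ˢ V).ncard ≤ ((box n t (T' + T) : Finset (E n t → ℤ)) : Set (E n t → ℤ)).ncard := by
    refine Set.ncard_le_ncard_of_injOn (fun p => s p.2 + p.1) ?_ ?_ (Finset.finite_toSet _)
    · rintro ⟨z, v⟩ ⟨hz, hv⟩
      exact Finset.mem_coe.2 (add_mem_box (hs v hv).1 hz.1)
    · rintro ⟨z, v⟩ ⟨hz, hv⟩ ⟨z', v'⟩ ⟨hz', hv'⟩ h
      simp only at h hz hv hz' hv'
      have h1 := congrArg (fun g => ev g x) h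
      simp only [ev_add] at h1
      rw [(hs v hv).2, (hs v' hv').2, hz.2, hz'.2, add_zero, add_zero] at h1
      subst h1
      have h2 : z = z' := add_left_cancel h
      rw [h2]
  rw [Set.ncard_prod, Set.ncard_coe_finset, card_box] at hle
  exact hle

/-- Number of forms with a prescribed value. -/
theorem card_value_le (t H : ℕ) (x : Fin n → R) (v : R) :
    {g : E n t → ℤ | g ∈ box n t H ∧ ev g x = v}.ncard ≤ nz t (2 * H) x := by
  classical
  rcases Set.eq_empty_or_nonempty {g : E n t → ℤ | g ∈ box n t H ∧ ev g x = v} with h | ⟨g₀, hg₀⟩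
  · rw [h, Set.ncard_empty]
    exact Nat.zero_le _
  · refine Set.ncard_le_ncard_of_injOn (fun g => g - g₀) ?_ ?_ (nz_finite t (2 * H) x)
    · intro g hg
      refine ⟨?_, ?_⟩
      · have := sub_mem_box hg.1 hg₀.1
        rwa [← two_mul] at this
      · rw [ev_sub, hg.2, hg₀.2, sub_self]
    · intro g _ g' _ h
      exact sub_left_injective h

end ring

/-- Number of systems sending the point `p` to a multiple of `q`. -/
theorem fibre_le {N : ℕ} (d H : ℕ) (p q : Fin (N + 1) → ℂ) (hq : q ≠ 0) :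
    {F : Fin (N + 1) → E (N + 1) d → ℤ | F ∈ Fb (N + 1) d H ∧
      ∃ c : ℂ, ∀ i, ev (F i) p = c * q i}.ncard ≤
      (2 * H + 1) ^ Fintype.card (E (N + 1) d) * nz d (2 * H) p ^ N := by
  classical
  obtain ⟨i₀, hi₀⟩ := Function.ne_iff.mp hq
  have hi₀' : q i₀ ≠ 0 := hi₀
  let S : (E (N + 1) d → ℤ) → Fin (N + 1) → Finset (E (N + 1) d → ℤ) := fun a i =>
    if i = i₀ then {a} else (box (N + 1) d H).filter (fun g => ev g p = q i / q i₀ * ev a p)
  have hcard : ∀ a, (Fintype.piFinset (S a)).card ≤ nz d (2 * H) p ^ N := by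
    intro a
    rw [Fintype.card_piFinset, ← Finset.mul_prod_erase Finset.univ _ (Finset.mem_univ i₀)]
    have h1 : (S a i₀).card = 1 := by simp [S]
    rw [h1, one_mul]
    calc ∏ i ∈ Finset.univ.erase i₀, (S a i).card
        ≤ ∏ _i ∈ (Finset.univ : Finset (Fin (N + 1))).erase i₀, nz d (2 * H) p := by
          refine Finset.prod_le_prod' fun i hi => ?_
          have hne : i ≠ i₀ := Finset.ne_of_mem_erase hi
          have h2 : ((S a i : Finset _) : Set (E (N + 1) d → ℤ)) =
              {g | g ∈ box (N + 1) d H ∧ ev g p = q i / q i₀ * ev a p} := by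
            ext g
            simp [S, hne]
          rw [← Set.ncard_coe_finset, h2]
          exact card_value_le d H p _
      _ = nz d (2 * H) p ^ N := by
          rw [Finset.prod_const, Finset.card_erase_of_mem (Finset.mem_univ _), Finset.card_univ,
            Fintype.card_fin, Nat.add_sub_cancel]
  have hsub : {F : Fin (N + 1) → E (N + 1) d → ℤ | F ∈ Fb (N + 1) d H ∧
      ∃ c : ℂ, ∀ i, ev (F i) p = c * q i} ⊆
      (((box (N + 1) d H).biUnion fun a => Fintype.piFinset (S a) : Finset _) : Set _) := by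
    rintro F ⟨hF, c, hc⟩
    rw [Finset.mem_coe, Finset.mem_biUnion]
    refine ⟨F i₀, mem_Fb.mp hF i₀, ?_⟩
    rw [Fintype.mem_piFinset]
    intro i
    by_cases hi : i = i₀
    · subst hi; simp [S]
    · simp only [S, if_neg hi, Finset.mem_filter]
      refine ⟨mem_Fb.mp hF i, ?_⟩
      rw [hc, hc]
      field_simp
  calc _ ≤ (((box (N + 1) d H).biUnion fun a => Fintype.piFinset (S a) : Finset _) :
        Set (Fin (N + 1) → E (N + 1) d → ℤ)).ncard :=
        Set.ncard_le_ncard hsub (Finset.finite_toSet _)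
    _ = ((box (N + 1) d H).biUnion fun a => Fintype.piFinset (S a)).card := by
        rw [Set.ncard_coe_finset]
    _ ≤ (box (N + 1) d H).card * nz d (2 * H) p ^ N :=
        Finset.card_biUnion_le_card_mul _ _ _ fun a _ => hcard a
    _ = _ := by rw [card_box]

/-! ### change of point -/

theorem nv_smul {K : Type} [Field K] {n t T : ℕ} (c : K) (hc : c ≠ 0) (x : Fin n → K) :
    nv t T (fun i => c * x i) = nv t T x := by
  have h : (fun g : E n t → ℤ => ev g (fun i => c * x i)) = (fun v => c ^ t * v) ∘ fun g => ev g x := by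
    funext g
    exact ev_smul c g x
  rw [nv, nv, h, Set.image_comp, Set.ncard_image_of_injective]
  exact mul_right_injective₀ (pow_ne_zero _ hc)

theorem nz_smul {K : Type} [Field K] {n t T : ℕ} (c : K) (hc : c ≠ 0) (x : Fin n → K) :
    nz t T (fun i => c * x i) = nz t T x := by
  rw [nz, nz]
  congr 1
  ext g
  simp only [Set.mem_ofPred_eq, ev_smul, mul_eq_zero, pow_eq_zero_iff', hc, false_and, false_or]

theorem nv_map {K : Type} [Field K] {n t T : ℕ} (φ : K →+* ℂ) (x : Fin n → K) :
    nv t T (fun i => φ (x i)) = nv t T x := by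
  have h : (fun g : E n t → ℤ => ev g (fun i => φ (x i))) = φ ∘ fun g => ev g x := by
    funext g
    exact (ev_map φ g x).symm
  rw [nv, nv, h, Set.image_comp, Set.ncard_image_of_injective]
  exact φ.injective

theorem nz_map {K : Type} [Field K] {n t T : ℕ} (φ : K →+* ℂ) (x : Fin n → K) :
    nz t T (fun i => φ (x i)) = nz t T x := by
  rw [nz, nz]
  congr 1
  ext g
  simp only [Set.mem_ofPred_eq, ← ev_map, map_eq_zero]

end Pool.Agent.W276.GE
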