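import Pool.Agent.W276.GE.Union

/-!
# Project GE: the number of systems which do not increase all heights
-/

set_option autoImplicit false

open Height NumberField

noncomputable section

namespace Pool.Agent.W276.GE

theorem bad_count (hspan : S_span) (hcov : S_cov) (hlow : S_low) (hpack : S_pack) (hpts : S_pts)
    (N D : ℕ) (hN : 1 ≤ N) (hD : 1 ≤ D) : ∃ d₀ : ℕ, ∀ d, d₀ ≤ d → ∃ C : ℝ, 0 < C ∧
      ∀ H : ℕ, 1 ≤ H → (({F | F ∈ Fb (N + 1) d H ∧ NoZero F ∧ Bad D F} :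
      Set (Fin (N + 1) → E (N + 1) d → ℤ)).ncard : ℝ) ≤
        C * (H : ℝ) ^ ((N + 1) * Fintype.card (E (N + 1) d) - N) := by
  classical
  obtain ⟨c, C₂, hc⟩ := hpts D
  obtain ⟨d₀, hd₀⟩ := nz_bound hspan hcov hlow hpack N D (2 * c * (N + 1) + 1) hN hD
  refine ⟨d₀, fun d hd => ?_⟩
  obtain ⟨C₁, hC₁, h₁⟩ := hd₀ d hd
  set M := Fintype.card (E (N + 1) d) with hM
  set C₃ : ℝ := (C₂ * 2 ^ c) ^ (2 * (N + 1)) * 3 ^ M * C₁ ^ N with hC₃
  have hC₃0 : 0 ≤ C₃ := by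
    have : 0 ≤ (C₂ * 2 ^ c) ^ (2 * (N + 1)) := Even.pow_nonneg (even_two_mul _) _
    positivity
  refine ⟨2 * C₃ + 1, by linarith, fun H hH => ?_⟩
  set W : Set (Fin (N + 1) → E (N + 1) d → ℤ) := {F | F ∈ Fb (N + 1) d H ∧ NoZero F ∧ Bad D F}
    with hW
  have hWf : W.Finite := (Finset.finite_toSet (Fb (N + 1) d H)).subset fun F h => h.1
  have hex : ∀ F : Fin (N + 1) → E (N + 1) d → ℤ, ∃ κ : ℕ, Bad D F → BadAt D κ F := by
    intro F
    by_cases h : Bad D F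
    · obtain ⟨κ, hκ⟩ := h.exists_at
      exact ⟨κ, fun _ => hκ⟩
    · exact ⟨0, fun h' => absurd h' h⟩
  choose f hf using hex
  let T : Finset ℕ := hWf.toFinset.image f
  let V : ℕ → Set (Fin (N + 1) → E (N + 1) d → ℤ) := fun κ =>
    {F | F ∈ Fb (N + 1) d H ∧ NoZero F ∧ BadAt D κ F}
  have hVf : ∀ κ, (V κ).Finite := fun κ =>
    (Finset.finite_toSet (Fb (N + 1) d H)).subset fun F h => h.1
  have hV : ∀ κ, ((V κ).ncard : ℝ) ≤
      C₃ * (H : ℝ) ^ ((N + 1) * M - N) * (1 / 2) ^ κ := by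
    intro κ
    obtain ⟨A, hA1, hA⟩ := hc (2 ^ (κ + 1)) (one_le_pow₀ (by norm_num))
    exact badAt_count hC₁ hH hN rfl (fun F hF hF0 K _ _ hK P hP hle =>
      h₁ H hH F hF hF0 K hK P hP hle) hA1 (fun K _ _ hK x hx φ => hA K hK x hx φ)
  have hcov2 : hWf.toFinset ⊆ T.biUnion fun κ => (hVf κ).toFinset := by
    intro F hF
    rw [Finset.mem_biUnion]
    refine ⟨f F, Finset.mem_image_of_mem _ hF, ?_⟩
    rw [Set.Finite.mem_toFinset] at hF ⊢
    exact ⟨hF.1, hF.2.1, hf F hF.2.2⟩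
  have h2 : (W.ncard : ℝ) ≤ ∑ κ ∈ T, ((V κ).ncard : ℝ) := by
    have h3 : W.ncard ≤ ∑ κ ∈ T, (V κ).ncard := by
      rw [Set.ncard_eq_toFinset_card _ hWf]
      refine (Finset.card_le_card hcov2).trans (Finset.card_biUnion_le.trans ?_)
      refine Finset.sum_le_sum fun κ _ => ?_
      rw [Set.ncard_eq_toFinset_card _ (hVf κ)]
    exact_mod_cast h3
  have h4 : ∑ κ ∈ T, (1 / 2 : ℝ) ^ κ ≤ 2 := by
    have h5 := summable_geometric_two.sum_le_tsum T (fun i _ => by positivity)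
    rwa [tsum_geometric_two] at h5
  have hH0 : (0 : ℝ) ≤ (H : ℝ) ^ ((N + 1) * M - N) := by positivity
  calc (W.ncard : ℝ) ≤ ∑ κ ∈ T, ((V κ).ncard : ℝ) := h2
    _ ≤ ∑ κ ∈ T, C₃ * (H : ℝ) ^ ((N + 1) * M - N) * (1 / 2) ^ κ :=
        Finset.sum_le_sum fun κ _ => hV κ
    _ = C₃ * (H : ℝ) ^ ((N + 1) * M - N) * ∑ κ ∈ T, (1 / 2 : ℝ) ^ κ := by
        rw [Finset.mul_sum]
    _ ≤ C₃ * (H : ℝ) ^ ((N + 1) * M - N) * 2 :=
        mul_le_mul_of_nonneg_left h4 (mul_nonneg hC₃0 hH0)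
    _ ≤ (2 * C₃ + 1) * (H : ℝ) ^ ((N + 1) * M - N) := by nlinarith

/-- A map which increases heights has no preperiodic point. -/
theorem no_preper {K : Type} [Field K] [NumberField K] {n : ℕ} (f : (Fin n → K) → (Fin n → K))
    (h0 : ∀ x, x ≠ 0 → f x ≠ 0) (hf : ∀ x, x ≠ 0 → mulHeight x < mulHeight (f x))
    (x : Fin n → K) (hx : x ≠ 0) (m k : ℕ) (hmk : m < k) (c : K) (hc : c ≠ 0)
    (h : f^[k] x = c • f^[m] x) : False := by
  have hne : ∀ i, f^[i] x ≠ 0 := by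
    intro i
    induction i with
    | zero => exact hx
    | succ i ih => rw [Function.iterate_succ_apply']; exact h0 _ ih
  have hmono : StrictMono fun i => mulHeight (f^[i] x) := by
    refine strictMono_nat_of_lt_succ fun i => ?_
    rw [Function.iterate_succ_apply']
    exact hf _ (hne i)
  have h1 := hmono hmk
  simp only [h] at h1
  rw [mulHeight_smul_eq_mulHeight _ hc] at h1
  exact lt_irrefl _ h1

end Pool.Agent.W276.GE
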