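import Pool.Agent.W276.GE.Conv

/-!
# Project GE: from coefficient families to systems of polynomials
-/

set_option autoImplicit false

open Height NumberField MvPolynomial

noncomputable section

namespace Pool.Agent.W276.GE

/-- the systems of forms as polynomials -/
def PS (N d H : ℕ) : Set (Fin (N + 1) → MvPolynomial (Fin (N + 1)) ℤ) :=
  {F | ∀ i, (F i).IsHomogeneous d ∧ ∀ m, |(F i).coeff m| ≤ H}

theorem ncard_PS (N d H : ℕ) (Q : (Fin (N + 1) → MvPolynomial (Fin (N + 1)) ℤ) → Prop)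
    (Q' : (Fin (N + 1) → E (N + 1) d → ℤ) → Prop)
    (h : ∀ F ∈ PS N d H, (Q F ↔ Q' fun i => cf d (F i))) :
    {F | F ∈ PS N d H ∧ Q F}.ncard = {G | G ∈ Fb (N + 1) d H ∧ Q' G}.ncard := by
  refine Set.ncard_congr (fun F _ i => cf d (F i)) ?_ ?_ ?_
  · rintro F ⟨hF, hQ⟩
    refine ⟨?_, (h F hF).mp hQ⟩
    rw [mem_Fb]
    intro i
    rw [mem_box]
    intro α
    exact (hF i).2 _
  · rintro F F' ⟨hF, _⟩ ⟨hF', _⟩ he
    funext i
    rw [← pf_cf (hF i).1, ← pf_cf (hF' i).1, congrFun he i]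
  · rintro G ⟨hG, hQ⟩
    have hG' := mem_Fb.mp hG
    have h1 : (fun i => pf (G i)) ∈ PS N d H := fun i => ⟨pf_hom _, coeff_pf_abs (hG' i)⟩
    have h2 : (fun i => cf d (pf (G i))) = G := funext fun i => cf_pf (G i)
    refine ⟨fun i => pf (G i), ⟨h1, ?_⟩, h2⟩
    rw [h _ h1, h2]
    exact hQ

theorem PS_finite (N d H : ℕ) : (PS N d H).Finite := by
  have h1 : ((fun (F : Fin (N + 1) → MvPolynomial (Fin (N + 1)) ℤ) (i : Fin (N + 1)) =>
      (cf d (F i) : E (N + 1) d → ℤ)) '' PS N d H).Finite := by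
    refine (Finset.finite_toSet (Fb (N + 1) d H)).subset ?_
    rintro _ ⟨F, hF, rfl⟩
    rw [Finset.mem_coe, mem_Fb]
    intro i
    rw [mem_box]
    intro α
    exact (hF i).2 _
  refine Set.Finite.of_finite_image h1 ?_
  intro F hF F' hF' he
  funext i
  rw [← pf_cf (hF i).1, ← pf_cf (hF' i).1]
  exact congrArg pf (congrFun he i)

theorem card_PS (N d H : ℕ) :
    (PS N d H).ncard = (2 * H + 1) ^ ((N + 1) * (N + d).choose N) := by
  have h := ncard_PS N d H (fun _ => True) (fun _ => True) (fun _ _ => Iff.rfl)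
  have h1 : {F | F ∈ PS N d H ∧ True} = PS N d H := by ext F; simp
  have h2 : {G : Fin (N + 1) → E (N + 1) d → ℤ | G ∈ Fb (N + 1) d H ∧ True} =
      (Fb (N + 1) d H : Set _) := by ext F; simp
  rw [h1, h2, Set.ncard_coe_finset, card_Fb, card_E] at h
  exact h

end Pool.Agent.W276.GE
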