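import Mathlib

/-!
# Project GE: statements

Integral forms of degree `t` in `n` variables are families `g : E n t → ℤ` of coefficients.
-/

set_option autoImplicit false

open Height NumberField

noncomputable section

namespace Pool.Agent.W276.GE

/-- The exponent vectors of degree `t` in `n` variables. -/
abbrev E (n t : ℕ) : Type := {α : Fin n → ℕ // α ∈ Finset.Nat.antidiagonalTuple n t}

/-- The coefficient of the form `g` at an arbitrary exponent vector. -/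
def co {n t : ℕ} (g : E n t → ℤ) (β : Fin n → ℕ) : ℤ :=
  if h : β ∈ Finset.Nat.antidiagonalTuple n t then g ⟨β, h⟩ else 0

/-- The coefficient of `g * x^γ` at `α`. -/
def sh {n d s t : ℕ} (g : E n d → ℤ) (γ : E n s) (α : E n t) : ℤ :=
  if ∀ i, γ.1 i ≤ α.1 i then co g (fun i => α.1 i - γ.1 i) else 0

/-- The value of the form `g` at the point `x`. -/
def ev {R : Type} [CommRing R] {n t : ℕ} (g : E n t → ℤ) (x : Fin n → R) : R :=
  ∑ α : E n t, (g α : R) * ∏ i, x i ^ α.1 i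

/-- The forms of degree `t` in `n` variables with coefficients of absolute value at most `T`. -/
def box (n t T : ℕ) : Finset (E n t → ℤ) := Fintype.piFinset fun _ => Finset.Icc (-(T : ℤ)) T

/-- The systems of `n` forms of degree `d` in `n` variables with coefficients at most `H`. -/
def Fb (n d H : ℕ) : Finset (Fin n → E n d → ℤ) := Fintype.piFinset fun _ => box n d H

/-- The number of values at `x` of the forms of degree `t` with coefficients at most `T`. -/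
def nv {R : Type} [CommRing R] {n : ℕ} (t T : ℕ) (x : Fin n → R) : ℕ :=
  ((fun g : E n t → ℤ => ev g x) '' (box n t T : Set (E n t → ℤ))).ncard

/-- The number of forms of degree `t` with coefficients at most `T` which vanish at `x`. -/
def nz {R : Type} [CommRing R] {n : ℕ} (t T : ℕ) (x : Fin n → R) : ℕ :=
  {g : E n t → ℤ | g ∈ box n t T ∧ ev g x = 0}.ncard

/-- The system `F` of forms has no common zero in `ℂ^n` except `0`. -/
def NoZero {n d : ℕ} (F : Fin n → E n d → ℤ) : Prop :=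
  ∀ x : Fin n → ℂ, (∀ i, ev (F i) x = 0) → x = 0

/-- The real linear combinations of the forms `F_j x^γ` of degree `t` are all real forms of
degree `t`. -/
def Spans {n d : ℕ} (F : Fin n → E n d → ℤ) (t : ℕ) : Prop :=
  ∀ w : E n t → ℝ, ∃ θ : Fin n → E n (t - d) → ℝ, ∀ α : E n t,
    w α = ∑ j, ∑ γ, θ j γ * (sh (F j) γ α : ℝ)

/-- The integral forms of degree `t` in the cell at `w`: they are of the form
`w + ∑ θ_{j,γ} F_j x^γ` with `0 ≤ θ_{j,γ} ≤ 1`. -/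
def Cell {n d : ℕ} (F : Fin n → E n d → ℤ) {t : ℕ} (w : E n t → ℝ) : Set (E n t → ℤ) :=
  {G | ∃ θ : Fin n → E n (t - d) → ℝ, (∀ j γ, 0 ≤ θ j γ ∧ θ j γ ≤ 1) ∧ ∀ α : E n t,
    (G α : ℝ) = w α + ∑ j, ∑ γ, θ j γ * (sh (F j) γ α : ℝ)}

/-! ### Forms without common zeros -/

/-- GE-PERM. -/
def S_perm : Prop :=
  ∀ (n : ℕ) (l l' : List (MvPolynomial (Fin n) ℂ)),
    (∀ f ∈ l, ∃ e, 1 ≤ e ∧ f.IsHomogeneous e) → l.Perm l' →
    RingTheory.Sequence.IsWeaklyRegular (MvPolynomial (Fin n) ℂ) l →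
    RingTheory.Sequence.IsWeaklyRegular (MvPolynomial (Fin n) ℂ) l'

/-- GE-LIN. -/
def S_lin : Prop :=
  ∀ (n : ℕ) (l : List (MvPolynomial (Fin n) ℂ)), l.length = n →
    (∀ f ∈ l, f.IsHomogeneous 1) →
    (∀ x : Fin n → ℂ, (∀ f ∈ l, MvPolynomial.eval x f = 0) → x = 0) →
    RingTheory.Sequence.IsWeaklyRegular (MvPolynomial (Fin n) ℂ) l

/-- GE-HYP. -/
def S_hyp : Prop :=
  ∀ (n : ℕ) (l : List (MvPolynomial (Fin (n + 1)) ℂ)) (f : MvPolynomial (Fin (n + 1)) ℂ),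
    l.length = n → (∀ g ∈ f :: l, ∃ e, 1 ≤ e ∧ g.IsHomogeneous e) →
    (∀ x : Fin (n + 1) → ℂ, (∀ g ∈ f :: l, MvPolynomial.eval x g = 0) → x = 0) →
    ∃ h : MvPolynomial (Fin (n + 1)) ℂ, h.IsHomogeneous 1 ∧
      ∀ x : Fin (n + 1) → ℂ, (∀ g ∈ h :: l, MvPolynomial.eval x g = 0) → x = 0

/-- GE-MAC: Macaulay's bound. -/
def S_mac : Prop :=
  ∀ (n d : ℕ), 1 ≤ n → 1 ≤ d → ∀ f : Fin n → MvPolynomial (Fin n) ℂ,
    (∀ i, (f i).IsHomogeneous d) →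
    (∀ x : Fin n → ℂ, (∀ i, MvPolynomial.eval x (f i) = 0) → x = 0) →
    ∀ t, n * (d - 1) + 1 ≤ t → ∀ g : MvPolynomial (Fin n) ℂ, g.IsHomogeneous t →
      g ∈ Ideal.span (Set.range f)

/-- GE-SPAN. -/
def S_span : Prop :=
  ∀ (n d : ℕ), 1 ≤ n → 1 ≤ d → ∀ F : Fin n → E n d → ℤ, NoZero F →
    ∀ t, n * (d - 1) + 1 ≤ t → Spans F t

/-! ### Numbers of values -/

/-- GE-COV. -/
def S_cov : Prop :=
  ∀ N : ℕ, ∃ k : ℕ, ∀ d : ℕ, N + 1 ≤ d → ∀ (T : ℕ) (x : Fin (N + 1) → ℂ),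
    nv ((N + 1) * (d - 1) + 1) T x ≤ nv d T x ^ k

/-- GE-IDEAL. -/
def S_ideal : Prop :=
  ∀ (n d t : ℕ), d ≤ t → ∀ F : Fin n → E n d → ℤ, Spans F t →
    ∀ (K : Type) [Field K] [NumberField K] (P : Fin n → 𝓞 K), P ≠ 0 →
    ∀ w : E n t → ℝ,
      (Ideal.absNorm (Ideal.span (Set.range fun i => ev (F i) P)) : ℝ) ≤
        (Ideal.absNorm (Ideal.span (Set.range P)) : ℝ) ^ d *
          (((fun G : E n t → ℤ => ev G P) '' Cell F w).ncard : ℝ) ^ (Module.finrank ℚ K)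

/-- GE-ARCH: `S_ideal → S_low`. -/
def S_low : Prop :=
  ∀ (n d t H : ℕ), 1 ≤ n → 1 ≤ d → d ≤ t → 1 ≤ H → ∀ F : Fin n → E n d → ℤ,
    (∀ i, F i ∈ box n d H) → Spans F t →
    ∀ (K : Type) [Field K] [NumberField K] (P : Fin n → K), P ≠ 0 →
      mulHeight (fun i => ev (F i) P) ≤ mulHeight P →
      ((H : ℝ) / (3 * (n * Fintype.card (E n (t - d))))) ^ (Module.finrank ℚ K) *
          mulHeight P ^ (d - 1) ≤
        (nv t (H + n * Fintype.card (E n (t - d)) * H) P : ℝ) ^ (Module.finrank ℚ K)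

/-! ### Heights -/

/-- GE-ROOT. -/
def S_root : Prop :=
  ∀ (K : Type) [Field K] [NumberField K] (d Z : ℕ) (g : Fin (d + 1) → ℤ) (x : K), 1 ≤ Z →
    g ≠ 0 → (∀ i, |g i| ≤ Z) → ∑ i, (g i : K) * x ^ (i : ℕ) = 0 →
    mulHeight₁ x ≤ (2 * (Z : ℝ) ^ 2) ^ (Module.finrank ℚ K)

/-- GE-PROD. -/
def S_prod : Prop :=
  ∀ (K : Type) [Field K] [NumberField K] (n : ℕ) (P : Fin n → K) (j : Fin n), P j ≠ 0 →
    mulHeight P ≤ ∏ i ∈ Finset.univ.erase j, mulHeight₁ (P i / P j)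

/-- GE-PACK: `S_root → S_prod → S_pack`. -/
def S_pack : Prop :=
  ∀ N D d : ℕ, 1 ≤ N → 1 ≤ D → 1 ≤ d → ∃ C : ℝ, 0 < C ∧
    ∀ (K : Type) [Field K] [NumberField K], Module.finrank ℚ K ≤ D →
    ∀ P : Fin (N + 1) → K, P ≠ 0 → ∀ H : ℕ, 1 ≤ H →
      mulHeight P ≤ (H : ℝ) ^ (2 * D * N) →
      (nz d (2 * H) P : ℝ) * mulHeight P ^ ((d : ℝ) / (2 * D * N)) ≤
        C * (H : ℝ) ^ (Fintype.card (E (N + 1) d) - 1)

/-- GE-PTS. -/
def S_pts : Prop :=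
  ∀ D : ℕ, ∃ (c : ℕ) (C : ℝ), ∀ X : ℝ, 1 ≤ X → ∃ A : Finset ℂ, (A.card : ℝ) ≤ C * X ^ c ∧
    ∀ (K : Type) [Field K] [NumberField K], Module.finrank ℚ K ≤ D →
      ∀ x : K, mulHeight₁ x ≤ X → ∀ φ : K →+* ℂ, φ x ∈ A

/-! ### Counting systems -/

/-- GE-LB. -/
def S_lb : Prop :=
  ∀ N d H : ℕ, 1 ≤ d → 1 ≤ H →
    H ^ ((N + 1) * Fintype.card (E (N + 1) d) - N) ≤
      {F : Fin (N + 1) → E (N + 1) d → ℤ | F ∈ Fb (N + 1) d H ∧ NoZero F ∧
        ∀ j, j ≠ 0 → ev (F j) (Pi.single 0 1 : Fin (N + 1) → ℤ) = 0}.ncard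

/-- GE-DEG. -/
def S_deg : Prop :=
  ∀ n d : ℕ, 1 ≤ n → 1 ≤ d → ∃ C : ℕ, ∀ H : ℕ, 1 ≤ H →
    {F : Fin n → E n d → ℤ | F ∈ Fb n d H ∧ ¬ NoZero F}.ncard ≤
      C * H ^ (n * Fintype.card (E n d) - 1)

end Pool.Agent.W276.GE
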