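import Pool.Agent.W276.GE.Bound

/-!
# Project GE: the union bound
-/

set_option autoImplicit false

open Height NumberField

noncomputable section

namespace Pool.Agent.W276.GE

/-- Over some number field of degree at most `D` there is a point whose height does not increase. -/
def Bad {N d : ℕ} (D : ℕ) (F : Fin (N + 1) → E (N + 1) d → ℤ) : Prop :=
  ∃ (K : Type) (_ : Field K) (_ : NumberField K), Module.finrank ℚ K ≤ D ∧
    ∃ P : Fin (N + 1) → K, P ≠ 0 ∧ mulHeight (fun i => ev (F i) P) ≤ mulHeight P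

/-- The same with the height of the point between `2^κ` and `2^(κ+1)`. -/
def BadAt {N d : ℕ} (D κ : ℕ) (F : Fin (N + 1) → E (N + 1) d → ℤ) : Prop :=
  ∃ (K : Type) (_ : Field K) (_ : NumberField K), Module.finrank ℚ K ≤ D ∧
    ∃ P : Fin (N + 1) → K, P ≠ 0 ∧ mulHeight (fun i => ev (F i) P) ≤ mulHeight P ∧
      (2 : ℝ) ^ κ ≤ mulHeight P ∧ mulHeight P ≤ 2 ^ (κ + 1)

theorem Bad.exists_at {N d D : ℕ} {F : Fin (N + 1) → E (N + 1) d → ℤ} (h : Bad D F) :
    ∃ κ, BadAt D κ F := by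
  obtain ⟨K, i1, i2, hK, P, hP, hle⟩ := h
  have h1 : 1 ≤ mulHeight P := one_le_mulHeight P
  obtain ⟨κ, h2, h3⟩ := exists_nat_pow_near h1 (by norm_num : (1 : ℝ) < 2)
  exact ⟨κ, K, i1, i2, hK, P, hP, hle, h2, h3.le⟩

theorem height_div_le {K : Type} [Field K] [NumberField K] {n : ℕ} (P : Fin n → K) (i j : Fin n) :
    mulHeight₁ (P i / P j) ≤ mulHeight P := by
  rw [mulHeight₁_div_eq_mulHeight]
  have h : (![P i, P j] : Fin 2 → K) = P ∘ ![i, j] := by
    funext k; fin_cases k <;> rfl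
  rw [h]
  exact mulHeight_comp_le _ _

/-- normalisation of a point -/
theorem exists_norm {K : Type} [Field K] [NumberField K] {n : ℕ} (φ : K →+* ℂ) {A : Finset ℂ} {X : ℝ}
    (hA : ∀ x : K, mulHeight₁ x ≤ X → φ x ∈ A) (P : Fin n → K) (hP : P ≠ 0)
    (hX : mulHeight P ≤ X) : ∃ c : K, c ≠ 0 ∧ ∀ i, φ (c * P i) ∈ A := by
  obtain ⟨j, hj⟩ := Function.ne_iff.mp hP
  refine ⟨(P j)⁻¹, inv_ne_zero hj, fun i => ?_⟩
  rw [inv_mul_eq_div]
  exact hA _ ((height_div_le P i j).trans hX)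

theorem image_ne_zero {N d : ℕ} {F : Fin (N + 1) → E (N + 1) d → ℤ} (hF : NoZero F) {K : Type}
    [Field K] (φ : K →+* ℂ) {P : Fin (N + 1) → K} (hP : P ≠ 0) :
    (fun i => ev (F i) P) ≠ 0 := by
  intro h
  apply hP
  have h1 := hF (fun i => φ (P i)) (fun i => by rw [← ev_map, congrFun h i]; simp)
  funext i
  have := congrFun h1 i
  simpa using this

theorem badAt_count {N D d κ H c B : ℕ} {C₁ C₂ : ℝ} (hC₁ : 0 < C₁) (hH : 1 ≤ H) (hN : 1 ≤ N)
    (hB : B = 2 * c * (N + 1) + 1)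
    (hnz : ∀ F ∈ Fb (N + 1) d H, NoZero F → ∀ (K : Type) [Field K] [NumberField K],
      Module.finrank ℚ K ≤ D → ∀ P : Fin (N + 1) → K, P ≠ 0 →
      mulHeight (fun i => ev (F i) P) ≤ mulHeight P →
      (nz d (2 * H) P : ℝ) * mulHeight P ^ B ≤ C₁ * (H : ℝ) ^ (Fintype.card (E (N + 1) d) - 1))
    {A : Finset ℂ} (hA1 : (A.card : ℝ) ≤ C₂ * (2 ^ (κ + 1)) ^ c)
    (hA : ∀ (K : Type) [Field K] [NumberField K], Module.finrank ℚ K ≤ D →
      ∀ x : K, mulHeight₁ x ≤ 2 ^ (κ + 1) → ∀ φ : K →+* ℂ, φ x ∈ A) :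
    (({F | F ∈ Fb (N + 1) d H ∧ NoZero F ∧ BadAt D κ F} :
      Set (Fin (N + 1) → E (N + 1) d → ℤ)).ncard : ℝ) ≤
      ((C₂ * 2 ^ c) ^ (2 * (N + 1)) * 3 ^ Fintype.card (E (N + 1) d) * C₁ ^ N) *
        (H : ℝ) ^ ((N + 1) * Fintype.card (E (N + 1) d) - N) * (1 / 2) ^ κ := by
  classical
  set M := Fintype.card (E (N + 1) d) with hM
  have hM1 : 1 ≤ M := card_E_pos _ _ (by omega)
  have hH1 : (1 : ℝ) ≤ H := by exact_mod_cast hH
  let Pt : Finset (Fin (N + 1) → ℂ) := Fintype.piFinset fun _ => A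
  let R : ℝ := C₁ * (H : ℝ) ^ (M - 1) / (2 ^ κ) ^ B
  have hR0 : 0 ≤ R := by positivity
  let Pr : Finset ((Fin (N + 1) → ℂ) × (Fin (N + 1) → ℂ)) :=
    (Pt ×ˢ Pt).filter fun pq => pq.2 ≠ 0 ∧ (nz d (2 * H) pq.1 : ℝ) ≤ R
  let S : (Fin (N + 1) → ℂ) × (Fin (N + 1) → ℂ) → Finset (Fin (N + 1) → E (N + 1) d → ℤ) :=
    fun pq => (Fb (N + 1) d H).filter fun F => ∃ c : ℂ, ∀ i, ev (F i) pq.1 = c * pq.2 i
  have hS : ∀ pq ∈ Pr, ((S pq).card : ℝ) ≤ (3 * H : ℝ) ^ M * R ^ N := by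
    rintro ⟨p, q⟩ hpq
    rw [Finset.mem_filter] at hpq
    have h1 := fibre_le d H p q hpq.2.1
    have h2 : ((S (p, q) : Finset _) : Set (Fin (N + 1) → E (N + 1) d → ℤ)) =
        {F | F ∈ Fb (N + 1) d H ∧ ∃ c : ℂ, ∀ i, ev (F i) p = c * q i} := by
      ext F
      simp [S]
    rw [← h2, Set.ncard_coe_finset] at h1
    have h3 : ((S (p, q)).card : ℝ) ≤ (2 * H + 1 : ℝ) ^ M * (nz d (2 * H) p : ℝ) ^ N := by
      exact_mod_cast h1
    refine h3.trans ?_
    have h4 := hpq.2.2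
    gcongr
    linarith
  have hsub : {F | F ∈ Fb (N + 1) d H ∧ NoZero F ∧ BadAt D κ F} ⊆
      ((Pr.biUnion S : Finset _) : Set (Fin (N + 1) → E (N + 1) d → ℤ)) := by
    rintro F ⟨hF, hF0, K, i1, i2, hK, P, hP, hle, hX1, hX2⟩
    let φ : K →+* ℂ := Classical.arbitrary _
    obtain ⟨a, ha, hap⟩ := exists_norm φ (fun x hx => hA K hK x hx φ) P hP hX2
    have hQ := image_ne_zero hF0 φ hP
    obtain ⟨b, hb, hbq⟩ := exists_norm φ (fun x hx => hA K hK x hx φ)
      (fun i => ev (F i) P) hQ (hle.trans hX2)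
    rw [Finset.mem_coe, Finset.mem_biUnion]
    refine ⟨(fun i => φ (a * P i), fun i => φ (b * ev (F i) P)), ?_, ?_⟩
    · rw [Finset.mem_filter]
      refine ⟨?_, ?_, ?_⟩
      · rw [Finset.mem_product]
        exact ⟨Fintype.mem_piFinset.2 hap, Fintype.mem_piFinset.2 hbq⟩
      · intro h
        apply hQ
        funext i
        have h1 := congrFun h i
        simp only [Pi.zero_apply, map_eq_zero, mul_eq_zero, hb, false_or] at h1
        exact h1
      · simp only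
        rw [nz_map φ (fun i => a * P i), nz_smul a ha P, le_div_iff₀ (by positivity)]
        refine le_trans ?_ (hnz F hF hF0 K hK P hP hle)
        gcongr
    · rw [Finset.mem_filter]
      refine ⟨hF, φ (a ^ d * b⁻¹), fun i => ?_⟩
      simp only
      rw [← ev_map φ (F i) (fun i => a * P i), ev_smul, ← map_mul]
      congr 1
      field_simp
  have hcardPr : (Pr.card : ℝ) ≤ (C₂ * (2 ^ (κ + 1)) ^ c) ^ (2 * (N + 1)) := by
    have h1 : Pr.card ≤ A.card ^ (2 * (N + 1)) := by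
      refine (Finset.card_filter_le _ _).trans ?_
      rw [Finset.card_product, Fintype.card_piFinset]
      simp only [Finset.prod_const, Finset.card_univ, Fintype.card_fin]
      rw [← pow_add]
      exact le_of_eq (by congr 1; omega)
    calc (Pr.card : ℝ) ≤ ((A.card ^ (2 * (N + 1)) : ℕ) : ℝ) := by exact_mod_cast h1
      _ = (A.card : ℝ) ^ (2 * (N + 1)) := by push_cast; rfl
      _ ≤ _ := by gcongr
  calc (({F | F ∈ Fb (N + 1) d H ∧ NoZero F ∧ BadAt D κ F} :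
      Set (Fin (N + 1) → E (N + 1) d → ℤ)).ncard : ℝ)
      ≤ ((Pr.biUnion S).card : ℝ) := by
        have := Set.ncard_le_ncard hsub (Finset.finite_toSet _)
        rw [Set.ncard_coe_finset] at this
        exact_mod_cast this
    _ ≤ ∑ pq ∈ Pr, ((S pq).card : ℝ) := by
        exact_mod_cast Finset.card_biUnion_le
    _ ≤ ∑ _pq ∈ Pr, (3 * H : ℝ) ^ M * R ^ N := Finset.sum_le_sum hS
    _ = Pr.card * ((3 * H : ℝ) ^ M * R ^ N) := by rw [Finset.sum_const, nsmul_eq_mul]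
    _ ≤ (C₂ * (2 ^ (κ + 1)) ^ c) ^ (2 * (N + 1)) * ((3 * H : ℝ) ^ M * R ^ N) := by gcongr
    _ ≤ _ := by
        have hu : (1 : ℝ) ≤ 2 ^ κ := one_le_pow₀ (by norm_num)
        set u : ℝ := 2 ^ κ with hudef
        have hu0 : 0 < u := by linarith
        have e1 : C₂ * (2 ^ (κ + 1)) ^ c = (C₂ * 2 ^ c) * u ^ c := by
          rw [hudef, pow_succ, mul_pow]; ring
        have e2 : (H : ℝ) ^ ((N + 1) * M - N) = (H : ℝ) ^ M * ((H : ℝ) ^ (M - 1)) ^ N := by
          rw [← pow_mul, ← pow_add]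
          congr 1
          obtain ⟨M', hM'⟩ : ∃ M', M = M' + 1 := ⟨M - 1, by omega⟩
          rw [hM', Nat.add_sub_cancel]
          have : (N + 1) * (M' + 1) = (M' + 1) + M' * N + N := by ring
          omega
        have e3 : (1 / 2 : ℝ) ^ κ = 1 / u := by rw [one_div_pow]
        have e4 : (C₂ * (2 ^ (κ + 1)) ^ c) ^ (2 * (N + 1)) * ((3 * H : ℝ) ^ M * R ^ N) =
            ((C₂ * 2 ^ c) ^ (2 * (N + 1)) * 3 ^ M * C₁ ^ N) * (H : ℝ) ^ ((N + 1) * M - N) *
              (u ^ (c * (2 * (N + 1))) / u ^ (B * N)) := by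
          have eR : R ^ N = C₁ ^ N * ((H : ℝ) ^ (M - 1)) ^ N / u ^ (B * N) := by
            simp only [R]
            rw [← hudef, div_pow, mul_pow, pow_mul u]
          rw [e1, e2, eR, mul_pow (C₂ * 2 ^ c) (u ^ c), ← pow_mul u, mul_pow (3 : ℝ) (H : ℝ)]
          ring
        rw [e4, e3]
        have h5 : u ^ (c * (2 * (N + 1))) / u ^ (B * N) ≤ 1 / u := by
          rw [div_le_div_iff₀ (by positivity) hu0, one_mul, ← pow_succ]
          refine pow_le_pow_right₀ hu ?_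
          have : c * (2 * (N + 1)) + 1 = B := by rw [hB]; ring
          rw [this]
          exact Nat.le_mul_of_pos_right _ hN
        have h6 : 0 ≤ ((C₂ * 2 ^ c) ^ (2 * (N + 1)) * 3 ^ M * C₁ ^ N) *
            (H : ℝ) ^ ((N + 1) * M - N) := by
          have : 0 ≤ (C₂ * 2 ^ c) ^ (2 * (N + 1)) := Even.pow_nonneg (even_two_mul _) _
          positivity
        exact mul_le_mul_of_nonneg_left h5 h6

end Pool.Agent.W276.GE
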